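import Pool.Agent.Helper80.AD.GoalsB

/-!
# Project AD (MP_6af536_nt): the orbit in the affine space (packet ABIG)
-/

set_option autoImplicit false

open MvPolynomial Filter Topology

noncomputable section

namespace Pool.Agent.Helper56.AD

open Pool.Agent.Helper80.HD Pool.Agent.Helper80.AD

section

variable {K : Type} [Field K] [Algebra K ℂ]

lemma ratioField_aff_le {N : ℕ} (w : Fin N → ℂ) (E : IntermediateField K ℂ) :
    ratioField K (aff w) ≤ E ↔ ∀ i, w i ∈ E := by
  constructor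
  · intro h i
    apply h
    apply IntermediateField.subset_adjoin
    refine ⟨i.succ, 0, ?_⟩
    simp [aff]
  · intro h
    have hc : ∀ j, aff w j ∈ E := by
      intro j
      refine Fin.cases ?_ (fun i => ?_) j
      · simp [aff]
      · simpa [aff] using h i
    refine IntermediateField.adjoin_le_iff.2 ?_
    rintro c ⟨i, j, rfl⟩
    exact E.div_mem (hc i) (hc j)

lemma aeval_mem_E {N : ℕ} (w : Fin N → ℂ) (E : IntermediateField K ℂ) (h : ∀ i, w i ∈ E)
    (r : MvPolynomial (Fin N) K) : aeval w r ∈ E := by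
  have h1 : w = algebraMap E ℂ ∘ fun i => (⟨w i, h i⟩ : E) := rfl
  rw [h1, aeval_algebraMap_apply]
  exact (aeval (fun i => (⟨w i, h i⟩ : E)) r).2

lemma coe_aeval {N : ℕ} (F : IntermediateField K ℂ) (y : Fin N → F) (r : MvPolynomial (Fin N) K) :
    ((aeval y r : F) : ℂ) = aeval (fun i => (y i : ℂ)) r :=
  (aeval_algebraMap_apply ℂ y r).symm

end

lemma aeval_inv {K : Type} [Field K] {N : ℕ} {A : Type} [CommRing A] [Algebra K A] (p q : Fin N → MvPolynomial (Fin N) K)
    (h : ∀ i, aeval q (p i) = X i) (y : Fin N → A) (i : Fin N) :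
    aeval (fun j => aeval y (q j)) (p i) = y i := by
  have h1 : aeval (fun j => aeval y (q j)) (p i) = aeval y (aeval q (p i)) :=
    (comp_aeval_apply q (aeval y) (p i)).symm
  rw [h1, h, aeval_X]

lemma orbit {A : Type} (P Q : A → A) (h1 : ∀ y, Q (P y) = y) (h2 : ∀ y, P (Q y) = y) (y0 : A) :
    ∃ y : ℤ → A, y 0 = y0 ∧ (∀ n, y (n + 1) = P (y n)) ∧ ∀ n, y (n - 1) = Q (y n) := by
  let e : Equiv.Perm A := ⟨P, Q, h1, h2⟩
  refine ⟨fun n => (e ^ n) y0, by simp, fun n => ?_, fun n => ?_⟩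
  · show (e ^ (n + 1)) y0 = e ((e ^ n) y0)
    rw [add_comm, zpow_one_add, Equiv.Perm.mul_apply]
  · show (e ^ (n - 1)) y0 = e.symm ((e ^ n) y0)
    rw [Equiv.eq_symm_apply, ← Equiv.Perm.mul_apply, ← zpow_one_add, add_sub_cancel]

lemma orbitA {K : Type} [Field K] {N : ℕ} {A : Type} [CommRing A] [Algebra K A]
    (p q : Fin N → MvPolynomial (Fin N) K) (hpq : ∀ i, aeval p (q i) = X i)
    (hqp : ∀ i, aeval q (p i) = X i) (y0 : Fin N → A) :
    ∃ y : ℤ → Fin N → A, (∀ i, y 0 i = y0 i) ∧ (∀ n i, y (n + 1) i = aeval (y n) (p i)) ∧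
      ∀ n i, y (n - 1) i = aeval (y n) (q i) := by
  obtain ⟨y, hy00, hp1, hq1⟩ := orbit (fun (y : Fin N → A) i => aeval y (p i)) (fun y i => aeval y (q i))
    (fun y => funext fun i => aeval_inv q p hpq y i) (fun y => funext fun i => aeval_inv p q hqp y i) y0
  exact ⟨y, fun i => congrFun hy00 i, fun n i => congrFun (hp1 n) i, fun n i => congrFun (hq1 n) i⟩

theorem abig : S_ABIG := by
  intro K _ _ _ N p q x F hpq hqp hx hF
  have hx0 : ∀ i, x 0 i ∈ F := (ratioField_aff_le (x 0) F).1 hF.ge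
  obtain ⟨y, hy00, hp, hq⟩ := orbitA p q hpq hqp (fun i => (⟨x 0 i, hx0 i⟩ : F))
  have hy0 : ∀ i, (y 0 i : ℂ) = x 0 i := fun i => by rw [hy00]
  have hstep : ∀ (E : IntermediateField K ℂ) (n : ℤ),
      (∀ i, (y n i : ℂ) ∈ E) → ∀ i, (y (n + 1) i : ℂ) ∈ E := by
    intro E n h i
    rw [hp, coe_aeval]
    exact aeval_mem_E _ E h _
  have hstep' : ∀ (E : IntermediateField K ℂ) (n : ℤ),
      (∀ i, (y n i : ℂ) ∈ E) → ∀ i, (y (n - 1) i : ℂ) ∈ E := by
    intro E n h i
    rw [hq, coe_aeval]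
    exact aeval_mem_E _ E h _
  have hall : ∀ (E : IntermediateField K ℂ) (n : ℤ),
      (∀ i, (y n i : ℂ) ∈ E) → ∀ i, (y 0 i : ℂ) ∈ E := by
    intro E n
    induction n using Int.induction_on with
    | zero => exact id
    | succ k ih =>
      intro h
      apply ih
      have := hstep' E _ h
      simpa using this
    | pred k ih =>
      intro h
      apply ih
      have := hstep E _ h
      simpa using this
  have hcv : ∀ n, cv (Fin.cons 1 (y n) : Fin (N + 1) → F) = aff (fun i => (y n i : ℂ)) := by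
    intro n
    funext j
    refine Fin.cases ?_ (fun i => ?_) j
    · simp [cv, aff]
    · simp [cv, aff]
  have hbig : ∀ n, Big K F (cv (Fin.cons 1 (y n) : Fin (N + 1) → F)) := by
    intro n
    rw [hcv]
    refine ⟨fun h => ?_, ?_, ?_⟩
    · have := congrFun h 0
      simp [aff] at this
    · rw [ratioField_aff_le]
      exact fun i => (y n i).2
    · intro a ha
      have h1 : ∀ i, (y n i : ℂ) ∈ ratioField K (aff (fun i => (y n i : ℂ))) :=
        (ratioField_aff_le _ _).1 le_rfl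
      have h2 := hall _ n h1
      have h3 : F ≤ ratioField K (aff (fun i => (y n i : ℂ))) := by
        refine hF.le.trans ((ratioField_aff_le _ _).2 fun i => ?_)
        rw [← hy0]
        exact h2 i
      exact isAlgebraic_algebraMap (⟨a, h3 ha⟩ : ratioField K (aff (fun i => (y n i : ℂ))))
  refine ⟨y, fun n => ⟨Fin.cons 1 (y n), hbig n, 0, by simp⟩, fun n => rfl, ?_, hp, hq⟩
  intro n
  show cv (Fin.cons 1 (y n) : Fin (N + 1) → F) = aff (x n)
  rw [hcv]
  congr 1
  funext i
  induction n generalizing i with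
  | zero => exact hy0 i
  | succ n ih =>
    rw [hx, ← funext ih, Nat.cast_succ, hp, coe_aeval]

end Pool.Agent.Helper56.AD
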